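import Pool.Agent.H1.Bram

namespace Pool.Agent.Results.MP_49eb30_co.Unbounded

open UpperHalfPlane Pool.Agent.H1.Bram

variable {V : Type}

/-- `G` is the intersection graph of closed disks of radius `r` in the hyperbolic plane. -/
def Rep (G : SimpleGraph V) (r : ℝ) : Prop :=
  0 < r ∧ ∃ p : V → ℍ, p.Injective ∧ ∀ u v, u ≠ v → (G.Adj u v ↔ dist (p u) (p v) ≤ 2 * r)

def IsTreeDec (G : SimpleGraph V) {ι : Type} (T : SimpleGraph ι) (X : ι → Set V) : Prop :=
  T.IsTree ∧ (∀ v, (T.induce {t | v ∈ X t}).Connected) ∧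
    ∀ u v, G.Adj u v → ∃ t, u ∈ X t ∧ v ∈ X t

/-- `L v` is the index of the layer of `v`. -/
def IsLayering (G : SimpleGraph V) (L : V → ℕ) : Prop := ∀ u v, G.Adj u v → L u ≤ L v + 1

noncomputable def h (j : ℕ) : ℝ := 1 / 32 ^ 2 ^ j

lemma hp (j : ℕ) : 0 < h j := by unfold h; positivity

lemma h1 {a b : ℕ} (l : a < b) : ∃ n : ℕ, 16 ≤ n ∧ n ≤ 32 ^ 2 ^ b ∧ h a = 2 * n * h b := by
  obtain ⟨d, e⟩ := Nat.exists_eq_add_of_lt (Nat.pow_lt_pow_right one_lt_two l)
  refine ⟨16 * 32 ^ d, Nat.le_mul_of_pos_right _ (by positivity), ?_, ?_⟩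
  · rw [e, pow_succ', pow_add]
    exact Nat.mul_le_mul (by omega) (Nat.le_mul_of_pos_left _ (by positivity))
  · simp only [h, e]; push_cast; field_simp; ring

lemma h2 {b m : ℕ} (l : b < m) : h m ≤ h b ^ 2 := by
  rw [h, h, div_pow, one_pow, ← pow_mul, ← pow_succ]
  gcongr <;> first | omega | norm_num

lemma h3 (a : ℕ) : h a ≤ 1 / 32 := by
  simpa [h] using inv_anti₀ (by norm_num) (le_self_pow₀ (a := (32 : ℝ)) (by norm_num)
    (by positivity : 2 ^ a ≠ 0))

lemma far {a b m : ℕ} (l : a < b) (l' : b < m) (x y : ℕ) {z : ℝ}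
    (e : ((2 * x + 1) * h a - z) ^ 2 ≤ 4 * h a * h m)
    (e' : ((2 * y + 1) * h b - z) ^ 2 ≤ 4 * h b * h m) : False := by
  obtain ⟨n, n1, -, hn⟩ := h1 l
  have o : (1 : ℝ) ≤ ((2 * x + 1) * (2 * n) - (2 * y + 1)) ^ 2 := by
    have : ((2 * x + 1) * (2 * n) - (2 * y + 1) : ℤ) ≠ 0 := by
      have : (2 * x + 1) * (2 * n) = (2 * ((2 * x + 1) * n) : ℤ) := by ring
      omega
    exact_mod_cast (sq_pos_of_ne_zero this)
  have := mul_le_mul_of_nonneg_left o (sq_nonneg (h b))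
  have k : ((2 * x + 1) * h a - (2 * y + 1) * h b) ^ 2 =
    h b ^ 2 * ((2 * x + 1) * (2 * n) - (2 * y + 1)) ^ 2 := by rw [hn]; ring
  have := mul_le_mul (h3 a) (h2 l') (hp _).le (by norm_num)
  have := mul_le_mul (h3 b) (h2 l') (hp _).le (by norm_num)
  have := mul_pos (hp a) (hp m)
  nlinarith [sq_nonneg ((2 * x + 1) * h a - z + ((2 * y + 1) * h b - z)), hp m, hp b, h3 b,
    mul_pos (hp b) (hp b)]

theorem result (c : ℕ) : ∃ (V : Type) (_ : Fintype V) (G : SimpleGraph V) (r : ℝ), Rep G r ∧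
    ∀ (ι : Type) (T : SimpleGraph ι) (X : ι → Set V) (L : V → ℕ), IsTreeDec G T X →
      IsLayering G L → ∃ t i, ∃ I : Finset V, c < I.card ∧ G.IsIndepSet I ∧
        ∀ v ∈ I, v ∈ X t ∧ L v = i := by
  classical
  obtain ⟨k, hk⟩ : ∃ k, k = 6 * c + 1 := ⟨_, rfl⟩
  obtain ⟨M, hM⟩ : ∃ M, M = (4 * k + 5) * 32 ^ 2 ^ (k + 1) := ⟨_, rfl⟩
  obtain ⟨S, S1, hS⟩ : ∃ S : ℝ, 1 ≤ S ∧ ∀ j : Fin (k + 1), (2 * M + 1) ^ 2 + 1 ≤ S * h j :=
    ⟨((2 * M + 1) ^ 2 + 1) * 32 ^ 2 ^ (k + 1), one_le_mul_of_one_le_of_one_le (by nlinarith)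
      (one_le_pow₀ (by norm_num)), fun j => by
      rw [h, mul_one_div, mul_div_assoc]
      refine le_mul_of_one_le_right (by positivity) ((one_le_div (by positivity)).2 ?_)
      gcongr <;> first | omega | norm_num⟩
  have S0 : 0 < S := by linarith
  have r := Real.arsinh_pos_iff.2 S0
  let p : Option (Fin (k + 1) × Fin (M + 1)) → ℍ := fun u => u.elim ⟨⟨0, 1⟩, one_pos⟩ fun a =>
    ⟨⟨(2 * a.2.val + 1) * h a.1, h a.1 / S⟩, div_pos (hp _) S0⟩
  have d : ∀ z w : ℍ, dist z w ≤ 2 * Real.arsinh S ↔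
      (z.re - w.re) ^ 2 + (z.im - w.im) ^ 2 ≤ 4 * S ^ 2 * z.im * w.im := fun z w => by
    have := z.im_pos
    have := w.im_pos
    rw [← abs_of_nonneg dist_nonneg, ← abs_of_pos (mul_pos two_pos r), ← Real.cosh_le_cosh,
      Real.cosh_two_mul, Real.cosh_sq', Real.sinh_arsinh, cosh_dist', div_le_iff₀ (by positivity)]
    constructor <;> intro <;> linarith
  let G : SimpleGraph _ := .fromRel fun u v => dist (p u) (p v) ≤ 2 * Real.arsinh S
  have g : ∀ u v, G.Adj u v ↔ u ≠ v ∧ dist (p u) (p v) ≤ 2 * Real.arsinh S := by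
    simp [G, dist_comm]
  have g1 : ∀ a b : Fin (k + 1) × Fin (M + 1), G.Adj (some a) (some b) ↔ a ≠ b ∧
      ((2 * a.2.val + 1) * h a.1 - (2 * b.2.val + 1) * h b.1) ^ 2 + ((h a.1 - h b.1) / S) ^ 2 ≤
        4 * h a.1 * h b.1 := fun a b => by
    rw [g, d, sub_div, show 4 * h a.1 * h b.1 = 4 * S ^ 2 * (h a.1 / S) * (h b.1 / S) by field_simp]
    simp [p]
  have g0 : ∀ a, G.Adj none (some a) := fun a => by
    refine (g _ _).2 ⟨by simp, (d _ _).2 ?_⟩
    have := hS a.1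
    have e : (a.2.val : ℝ) ≤ M := by exact_mod_cast Nat.le_of_lt_succ a.2.2
    have e1 : h a.1 / S ≤ 1 := (div_le_one S0).2 (by linarith [h3 a.1])
    have e2 := div_pos (hp a.1) S0
    have e3 : ((2 * a.2.val + 1) * h a.1) ^ 2 ≤ (2 * M + 1) ^ 2 := pow_le_pow_left₀
      (by have := hp a.1; positivity) (by nlinarith [h3 a.1, hp a.1]) _
    show (0 - (2 * a.2.val + 1) * h a.1) ^ 2 + (1 - h a.1 / S) ^ 2 ≤ 4 * S ^ 2 * 1 * (h a.1 / S)
    rw [show 4 * S ^ 2 * 1 * (h a.1 / S) = 4 * (S * h a.1) by field_simp]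
    nlinarith
  refine ⟨_, inferInstance, G, _, ⟨r, p, ?_, fun u v n => by simp [g, n]⟩, ?_⟩
  · have : ∀ a, p none ≠ p (some a) := fun a e =>
      (show 0 < (2 * a.2.val + 1) * h a.1 by have := hp a.1; positivity).ne (congrArg re e)
    rintro (_ | ⟨a, x⟩) (_ | ⟨b, y⟩) e
    exacts [rfl, (this _ e).elim, (this _ e.symm).elim, by
      have e1 : h a = h b := (div_left_inj' S0.ne').1 (congrArg im e)
      obtain rfl : a = b := by
        by_contra n
        rcases lt_or_gt_of_ne n with l | l <;> nlinarith [h2 l, h3 a, h3 b, hp a]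
      have e2 : (2 * x.val + 1) * h a = (2 * y.val + 1) * h a := congrArg re e
      simpa [(hp a).ne', Fin.ext_iff] using e2]
  rintro ι T X L ⟨t1, t2, t3⟩ hL
  have col : ∀ (x j : Fin (k + 1)), ∃ m : Fin (M + 1), (j = 0 → m.val = 2 * x) ∧
      (j ≠ 0 → (2 * m.val + 1) * h j = (4 * x.val + 1) * h 0 + h j) := fun x j => by
    have : 1 ≤ 32 ^ 2 ^ (k + 1) := Nat.one_le_pow _ _ (by omega)
    by_cases e : j = 0
    · exact ⟨⟨2 * x, by nlinarith [x.2]⟩, fun _ => rfl, fun n => (n e).elim⟩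
    · obtain ⟨n, -, n1, n2⟩ := h1 (Fin.pos_iff_ne_zero.2 e)
      have : n ≤ 32 ^ 2 ^ (k + 1) := n1.trans (by gcongr <;> omega)
      exact ⟨⟨(4 * x + 1) * n, by nlinarith [x.2]⟩, fun n => (e n).elim, fun _ => by
        rw [show h 0 = _ from n2]; push_cast; ring⟩
  choose m m0 m1 using col
  have up : ∀ (j : Fin (k + 1)), h j ≤ h 0 ∧ (j ≠ 0 → 2 * h j ≤ h 0) := fun j => by
    have := fun e : j ≠ 0 => h2 (Fin.pos_iff_ne_zero.2 e)
    have k : j ≠ 0 → 2 * h j ≤ h 0 := fun e => by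
      have : h j ≤ h 0 ^ 2 := this e
      nlinarith [h3 0, hp 0]
    exact ⟨by by_cases e : j = 0; exacts [e ▸ le_rfl, by linarith [k e, hp j]], k⟩
  have ad : ∀ x j, j ≠ 0 → G.Adj (some (j, m x j)) (some (0, m x 0)) := fun x j e => by
    refine (g1 _ _).2 ⟨by simp [e], ?_⟩
    have a1 := hS j
    have a2 := (up j).1
    have a3 : ((h j - h 0) / S) ^ 2 ≤ h j * h 0 := by
      rw [div_pow, div_le_iff₀ (by positivity)]
      have : 1 ≤ S * h j := by nlinarith
      have : 1 ≤ h j * S ^ 2 := by nlinarith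
      nlinarith [h3 0, hp 0, hp j]
    simp only [m1 x j e, m0 x 0 rfl, Fin.val_zero]
    push_cast
    nlinarith [hp j]
  obtain ⟨t, ht⟩ := bramble t1 t2 t3 (fun i : Fin (k + 1) × Fin (k + 1) =>
    {v | (∃ y, v = some (i.1, y)) ∨ ∃ j, v = some (j, m i.2 j)}) (fun i => some (0, m i.2 0))
    (fun ⟨j, x⟩ v hv => by
      have c1 : ∀ j', Relation.ReflTransGen (fun a b => G.Adj a b ∧ a ∈ {v | (∃ y, v = some (j, y))
          ∨ ∃ j, v = some (j, m x j)}) (some (j', m x j')) (some (0, m x 0)) := fun j' => by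
        by_cases e : j' = 0
        exacts [e ▸ .refl, .single ⟨ad x j' e, .inr ⟨_, rfl⟩⟩]
      obtain ⟨y, rfl⟩ | ⟨j', rfl⟩ := hv
      · refine .trans ?_ (c1 j)
        have : ∀ R : _ → _ → Prop, (∀ y z, G.Adj (some (j, y)) z → R (some (j, y)) z) →
            ∀ y : Fin (M + 1), Relation.ReflTransGen R (some (j, 0)) (some (j, y)) ∧
            Relation.ReflTransGen R (some (j, y)) (some (j, 0)) := fun R hR y => by
          induction y using Fin.induction with
          | zero => exact ⟨.refl, .refl⟩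
          | succ y ih =>
            have : G.Adj (some (j, y.castSucc)) (some (j, y.succ)) :=
              (g1 _ _).2 ⟨by simp [Fin.ext_iff], by simp; nlinarith⟩
            exact ⟨ih.1.tail (hR _ _ this), ih.2.head (hR _ _ this.symm)⟩
        refine .trans (this _ ?_ y).2 (this _ ?_ _).1 <;> exact fun y z e => ⟨e, .inl ⟨_, rfl⟩⟩
      · exact c1 j')
    (fun i => .inr ⟨_, rfl⟩) fun i j => ⟨some (i.1, m j.2 i.1), .inl ⟨_, rfl⟩, .inr ⟨_, rfl⟩⟩
  obtain ⟨f, f1, f2, f3⟩ : ∃ f : Fin (k + 1) → Fin (k + 1) × Fin (M + 1), f.Injective ∧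
      (∀ j, some (f j) ∈ X t) ∧ ∀ a b m, a < b → b < m → G.Adj (some (f a)) (some (f m)) →
        G.Adj (some (f b)) (some (f m)) → False := by
    by_cases e : ∀ j, ∃ y, some (j, y) ∈ X t
    · choose y hy using e
      exact ⟨fun j => (j, y j), fun a b e => congrArg Prod.fst e, hy, fun a b m l l' e e' =>
        far l l' _ _ ((le_add_of_nonneg_right (sq_nonneg _)).trans ((g1 _ _).1 e).2)
          ((le_add_of_nonneg_right (sq_nonneg _)).trans ((g1 _ _).1 e').2)⟩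
    push Not at e
    obtain ⟨j, e⟩ := e
    have : ∀ x, ∃ j, some (j, m x j) ∈ X t := fun x => by
      obtain ⟨v, ⟨y, rfl⟩ | ⟨j, rfl⟩, h⟩ := ht (j, x)
      exacts [(e y h).elim, ⟨j, h⟩]
    choose y hy using this
    have b : ∀ x j, (4 * x.val + 1) * h 0 ≤ (2 * (m x j).val + 1) * h j ∧
        (2 * (m x j).val + 1) * h j ≤ (4 * x.val + 2) * h 0 := fun x j => by
      by_cases e : j = 0
      · subst e
        rw [m0 x 0 rfl, Fin.val_zero]; push_cast
        constructor <;> linarith [hp 0]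
      · rw [m1 x j e]
        constructor <;> linarith [hp j, (up j).1]
    have b' : ∀ a c : Fin (k + 1), a < c → 3 * h 0 ≤ (2 * (m c (y c)).val + 1) * h (y c) -
        (2 * (m a (y a)).val + 1) * h (y a) := fun a c l => by
      have : (a.val : ℝ) + 1 ≤ c.val := by exact_mod_cast l
      nlinarith [(b a (y a)).2, (b c (y c)).1, hp 0]
    refine ⟨fun x => (y x, m x (y x)), fun a c e => by_contra fun n => ?_, hy,
      fun a _ c l l' e _ => ?_⟩
    · obtain ⟨e1, e2⟩ := Prod.mk.inj e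
      rcases lt_or_gt_of_ne n with l | l <;> have := b' _ _ l <;> rw [e2, e1] at this <;>
        linarith [hp 0]
    · have := ((g1 _ _).1 e).2
      have := mul_le_mul (up (y a)).1 (up (y c)).1 (hp _).le (hp _).le
      nlinarith [b' a c (l.trans l'), hp 0, sq_nonneg ((h (y a) - h (y c)) / S)]
  obtain ⟨i, -, hi⟩ := Finset.exists_lt_card_fiber_of_mul_lt_card_of_maps_to (s := .univ)
    (t := .Icc (L none - 1) (L none + 1)) (f := fun j => L (some (f j))) (n := 2 * c)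
    (fun j _ => by
      have := hL _ _ (g0 (f j))
      have := hL _ _ (g0 (f j)).symm
      rw [Finset.mem_Icc]; omega)
    (by
      have : (Finset.Icc (L none - 1) (L none + 1)).card ≤ 3 := by simp; omega
      simp only [Finset.card_univ, Fintype.card_fin]
      nlinarith)
  obtain ⟨I, i1, i2, i3⟩ := ind _ f3 (Finset.univ.filter fun j => L (some (f j)) = i)
  refine ⟨t, i, I.image fun j => some (f j), ?_, ?_, ?_⟩
  · rw [Finset.card_image_of_injective _ fun a b e => f1 (Option.some.inj e)]; omega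
  · rw [Finset.coe_image]
    rintro _ ⟨a, ha, rfl⟩ _ ⟨b, hb, rfl⟩ n e
    rcases lt_trichotomy a b with l | rfl | l
    exacts [i3 a ha b hb l e, n rfl, i3 b hb a ha l e.symm]
  · simpa using fun a e => ⟨f2 a, by simpa using i1 e⟩

end Pool.Agent.Results.MP_49eb30_co.Unbounded
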